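import Pool.Agent.L5helper62.Frege.Count
import Pool.Agent.L5helper62.Frege.Complete

/-!
MP_576eff_lc (superpolynomial lower bounds for Frege proofs): exponential lower bounds for
constant-depth Frege proofs with a restricted use of `MOD p` connectives.

Superpolynomial lower bounds are not known for constant-depth Frege systems with `MOD p`
connectives. The theorem gives exponential lower bounds for the counting principle modulo `q`, for
every prime `p` which does not divide `q`, when every formula in the proof has at most `N ^ ε`
maximal subformulas which begin with a `MOD p` connective. The `MOD p` connectives may have any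
number of arguments, may occur anywhere in the formulas and may be nested up to the depth of the
formulas. The proof may use any sound rules with a bounded number of premises which only depend on
the outermost connectives of a bounded number of subformulas and on the meaning of the `MOD p`
connectives.
-/

set_option autoImplicit false

namespace Pool.Agent.Results.MP_576eff_lc.CountingModGates

open Pool.Agent.Helper600R2.Cnt

/-- Let `p` be a prime, `q ≥ 2` and `p ∤ q`.
1. For all `d` and `c` there is `ε > 0` such that for all large `N`: if `L` is a refutation, by
`c`-local inferences, of the counting principle modulo `q` on `N` points (a partition of the points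
into sets with `q` elements exists), the lines of `L` have depth at most `d` (negations,
disjunctions and `MOD p` connectives of any number of arguments), and no subformula of a line has
more than `N ^ ε` maximal subformulas which begin with a `MOD p` connective, then `L` has at least
`2 ^ (N ^ ε)` distinct subformulas.
2. If `q` does not divide `N` then there is a refutation by `4`-local inferences all of whose lines
are disjunctions of literals. -/
theorem result (p q : ℕ) (hp : p.Prime) (hq : 2 ≤ q) (hpq : ¬ p ∣ q) :
    (∀ d c : ℕ, ∃ ε : ℝ, 0 < ε ∧ ∃ N₀ : ℕ, ∀ N : ℕ, N₀ ≤ N →
      ∀ (T : ℕ) (L : Fin T → Fm p (Var q N)), IsRefutation c L →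
        (∀ i, (L i).depth ≤ d) →
        (∀ φ ∈ allSub L, (φ.tops.card : ℝ) ≤ (N : ℝ) ^ ε) →
        (2 : ℝ) ^ ((N : ℝ) ^ ε) ≤ ((allSub L).card : ℝ)) ∧
    (∀ N : ℕ, ¬ q ∣ N → ∃ (T : ℕ) (L : Fin T → Fm p (Var q N)), IsRefutation 4 L ∧
      (∀ i, (L i).depth ≤ 2) ∧ ∀ χ ∈ allSub L, χ.tops = ∅) :=
  ⟨fun d c => Pool.Agent.L5helper62.Frege.lower p q hp hq hpq d c,
    fun N hN => Pool.Agent.L5helper62.Frege.exists_refutation p q N hN⟩

end Pool.Agent.Results.MP_576eff_lc.CountingModGates
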