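import Pool.Agent.L5helper87.FL.Par

/-!
# Frege refutations of the pigeonhole principle with small lines and unbounded depth
-/

set_option autoImplicit false

namespace Pool.Agent.Results.MP_576eff_lc.LineSize

open Pool.Agent.L5helper87.FL

/-- Propositional formulas about `n + 1` pigeons and `n` holes, with the connectives
`⊥, ¬, ∧, ∨, →`. The atom `atom p S` says that the hole of the pigeon `p` is in the set `S`. For
`n = 2 ^ b` the variables of the bit pigeonhole principle (the `j`-th bit of the hole of `p`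
is `1`) are atoms. -/
inductive PF (n : ℕ) : Type
  | bot : PF n
  | atom (p : Fin (n + 1)) (S : Finset (Fin n)) : PF n
  | neg (A : PF n) : PF n
  | and (A B : PF n) : PF n
  | or (A B : PF n) : PF n
  | imp (A B : PF n) : PF n

variable {n : ℕ}

/-- The truth value of a formula; `v p` is the hole of the pigeon `p`. -/
def PF.eval (v : Fin (n + 1) → Fin n) : PF n → Bool
  | bot => false
  | atom p S => decide (v p ∈ S)
  | neg A => !(A.eval v)
  | and A B => A.eval v && B.eval v
  | or A B => A.eval v || B.eval v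
  | imp A B => !(A.eval v) || B.eval v

/-- The size of a formula: the number of occurrences of atoms. -/
def PF.size : PF n → ℕ
  | bot => 0
  | atom _ _ => 1
  | neg A => A.size
  | and A B => A.size + B.size
  | or A B => A.size + B.size
  | imp A B => A.size + B.size

/-- The line `f` is a Boolean function of at most `m` formulas, of any depth, whose sizes have a
sum of at most `s`. -/
def Comb (m s : ℝ) (f : (Fin (n + 1) → Fin n) → Bool) : Prop :=
  ∃ Φ : List (PF n), (Φ.length : ℝ) ≤ m ∧ (((Φ.map PF.size).sum : ℕ) : ℝ) ≤ s ∧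
    ∀ v v', (∀ A ∈ Φ, A.eval v = A.eval v') → f v = f v'

/-- The lines `f 0, ..., f (T - 1)` are a refutation of the pigeonhole principle with
inferences from at most `d` premises: every line is implied by the statement that some two pigeons
`p ≠ p'` are in different holes, or by at most `d` earlier lines; and some line is
unsatisfiable. -/
def IsRefutation (d T : ℕ) (f : ℕ → (Fin (n + 1) → Fin n) → Bool) : Prop :=
  (∀ i < T,
    (∃ p p' : Fin (n + 1), p ≠ p' ∧ ∀ v : Fin (n + 1) → Fin n, v p ≠ v p' → f i v = true) ∨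
    ∃ R : Finset ℕ, R.card ≤ d ∧ (∀ j ∈ R, j < i) ∧
      ∀ v, (∀ j ∈ R, f j v = true) → f i v = true) ∧
  ∃ i < T, ∀ v, f i v = false

/-- the translation to the formulas with `¬` and `∧` -/
def toFm : PF n → Fm (Fin (n + 1) × (Fin n → Bool))
  | .bot => Fm.cst false
  | .atom p S => Fm.lf (p, fun h => decide (h ∈ S))
  | .neg A => Fm.ng (toFm A)
  | .and A B => Fm.an (toFm A) (toFm B)
  | .or A B => Fm.ng (Fm.an (Fm.ng (toFm A)) (Fm.ng (toFm B)))
  | .imp A B => Fm.ng (Fm.an (toFm A) (Fm.ng (toFm B)))

theorem val_toFm (A : PF n) (v : Fin (n + 1) → Fin n) : val (toFm A) v = A.eval v := by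
  induction A with
  | bot => rfl
  | atom p S => rfl
  | neg A ih =>
    change (!(val (toFm A) v)) = _
    rw [ih]; rfl
  | and A B ih₁ ih₂ =>
    change (val (toFm A) v && val (toFm B) v) = _
    rw [ih₁, ih₂]; rfl
  | or A B ih₁ ih₂ =>
    change (!(!(val (toFm A) v) && !(val (toFm B) v))) = _
    rw [ih₁, ih₂]
    change _ = (A.eval v || B.eval v)
    cases A.eval v <;> cases B.eval v <;> rfl
  | imp A B ih₁ ih₂ =>
    change (!(val (toFm A) v && !(val (toFm B) v))) = _
    rw [ih₁, ih₂]
    change _ = (!(A.eval v) || B.eval v)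
    cases A.eval v <;> cases B.eval v <;> rfl

theorem size_toFm (A : PF n) : (toFm A).size = A.size := by
  induction A with
  | bot => rfl
  | atom p S => rfl
  | neg A ih => exact ih
  | and A B ih₁ ih₂ =>
    change (toFm A).size + (toFm B).size = _
    rw [ih₁, ih₂]; rfl
  | or A B ih₁ ih₂ =>
    change (toFm A).size + (toFm B).size = _
    rw [ih₁, ih₂]; rfl
  | imp A B ih₁ ih₂ =>
    change (toFm A).size + (toFm B).size = _
    rw [ih₁, ih₂]; rfl

/-! ### Short refutations with lines of size `O(n² log n)` -/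

/-- the `j`-th bit of the hole of `p` -/
def bitF (p : Fin (n + 1)) (j : ℕ) : PF n :=
  .atom p (Finset.univ.filter fun h : Fin n => h.val.testBit j = true)

/-- the pigeons `p`, `p'` have holes which differ in one of the first `k` bits -/
def neF (p p' : Fin (n + 1)) : ℕ → PF n
  | 0 => .bot
  | k + 1 => .or (neF p p' k) (.or (.and (bitF p k) (.neg (bitF p' k)))
      (.and (.neg (bitF p k)) (bitF p' k)))

theorem neF_size (p p' : Fin (n + 1)) (k : ℕ) : (neF p p' k).size = 4 * k := by
  induction k with
  | zero => rfl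
  | succ k ih =>
    simp only [neF, PF.size, bitF, ih]
    ring

theorem neF_eval (p p' : Fin (n + 1)) (v : Fin (n + 1) → Fin n) (k : ℕ) :
    (neF p p' k).eval v = true ↔ ∃ j < k, (v p).val.testBit j ≠ (v p').val.testBit j := by
  induction k with
  | zero => simp [neF, PF.eval]
  | succ k ih =>
    have h1 : (neF p p' (k + 1)).eval v = ((neF p p' k).eval v ||
        ((v p).val.testBit k && !(v p').val.testBit k ||
        !(v p).val.testBit k && (v p').val.testBit k)) := by
      simp [neF, PF.eval, bitF]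
    rw [h1, Bool.or_eq_true, ih]
    constructor
    · rintro (⟨j, hj, h⟩ | h)
      · exact ⟨j, by omega, h⟩
      · refine ⟨k, by omega, ?_⟩
        cases h2 : (v p).val.testBit k <;> cases h3 : (v p').val.testBit k <;>
          simp [h2, h3] at h ⊢
    · rintro ⟨j, hj, h⟩
      by_cases hjk : j = k
      · right
        subst hjk
        cases h2 : (v p).val.testBit j <;> cases h3 : (v p').val.testBit j <;>
          simp [h2, h3] at h ⊢
      · left
        exact ⟨j, by omega, h⟩

/-- the axiom of the pair with the number `k` -/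
def axF (n k : ℕ) : PF n :=
  let p : Fin (n + 1) := Fin.ofNat (n + 1) (k / (n + 1))
  let p' : Fin (n + 1) := Fin.ofNat (n + 1) (k % (n + 1))
  if p = p' then .neg .bot else neF p p' (Nat.log 2 n + 1)

/-- the conjunction of the first `k` axioms -/
def conjF (n : ℕ) : ℕ → PF n
  | 0 => .neg .bot
  | k + 1 => .and (conjF n k) (axF n k)

theorem axF_size (n k : ℕ) : (axF n k).size ≤ 4 * (Nat.log 2 n + 1) := by
  simp only [axF]
  split_ifs
  · simp [PF.size]
  · rw [neF_size]

theorem conjF_size (n k : ℕ) : (conjF n k).size ≤ k * (4 * (Nat.log 2 n + 1)) := by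
  induction k with
  | zero => simp [conjF, PF.size]
  | succ k ih =>
    have := axF_size n k
    simp only [conjF, PF.size]
    rw [Nat.add_mul, Nat.one_mul]
    omega

theorem conjF_eval (n : ℕ) (v : Fin (n + 1) → Fin n) (k : ℕ) :
    (conjF n k).eval v = true ↔ ∀ j < k, (axF n j).eval v = true := by
  induction k with
  | zero => simp [conjF, PF.eval]
  | succ k ih =>
    simp only [conjF, PF.eval, Bool.and_eq_true, ih]
    constructor
    · rintro ⟨h1, h2⟩ j hj
      by_cases hjk : j = k
      · rw [hjk]; exact h2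
      · exact h1 j (by omega)
    · intro h
      exact ⟨fun j hj => h j (by omega), h k (by omega)⟩

theorem ne_iff_bits {x y : Fin n} : x ≠ y ↔
    ∃ j < Nat.log 2 n + 1, x.val.testBit j ≠ y.val.testBit j := by
  constructor
  · intro h
    by_contra hcon
    push Not at hcon
    apply h
    apply Fin.ext
    apply Nat.eq_of_testBit_eq
    intro j
    by_cases hj : j < Nat.log 2 n + 1
    · exact hcon j hj
    · have h1 : n < 2 ^ j := lt_of_lt_of_le (Nat.lt_pow_succ_log_self (by norm_num) n)
        (Nat.pow_le_pow_right (by norm_num) (by omega))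
      rw [Nat.testBit_lt_two_pow (x.isLt.trans h1), Nat.testBit_lt_two_pow (y.isLt.trans h1)]
  · rintro ⟨j, -, h⟩ rfl
    exact h rfl

/-- the lines of the short refutation -/
def shortF (n i : ℕ) : PF n := if i % 2 = 0 then axF n (i / 2) else conjF n (i / 2 + 1)

theorem short_refutation (n : ℕ) (hn : 1 ≤ n) :
    IsRefutation 2 (2 * (n + 1) ^ 2) (fun i v => (shortF n i).eval v) ∧
    ∀ i < 2 * (n + 1) ^ 2, (shortF n i).size ≤ 4 * (n + 1) ^ 2 * (Nat.log 2 n + 1) := by
  refine ⟨⟨?_, ?_⟩, ?_⟩
  · intro i hi
    by_cases he : i % 2 = 0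
    · left
      simp only [shortF, if_pos he, axF]
      split_ifs with hpp
      · refine ⟨0, Fin.last n, ?_, fun v _ => rfl⟩
        intro h
        have := congrArg Fin.val h
        simp at this
        omega
      · exact ⟨_, _, hpp, fun v hv => (neF_eval _ _ v _).2 (ne_iff_bits.1 hv)⟩
    · right
      refine ⟨{i - 1, i - 2}, Finset.card_le_two, ?_, ?_⟩
      · intro j hj
        rcases Finset.mem_insert.1 hj with rfl | hj
        · omega
        · rw [Finset.mem_singleton.1 hj]; omega
      · intro v hv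
        have h1 : (shortF n (i - 1)).eval v = true := hv (i - 1) (by simp)
        have h2 : (shortF n (i - 2)).eval v = true := hv (i - 2) (by simp)
        have e1 : (i - 1) % 2 = 0 := by omega
        have e2 : (i - 1) / 2 = i / 2 := by omega
        simp only [shortF, if_pos e1, e2] at h1
        simp only [shortF, if_neg he, conjF, PF.eval, Bool.and_eq_true]
        refine ⟨?_, h1⟩
        by_cases hi1 : i = 1
        · subst hi1
          rfl
        · have e3 : ¬ (i - 2) % 2 = 0 := by omega
          have e4 : (i - 2) / 2 + 1 = i / 2 := by omega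
          simp only [shortF, if_neg e3, e4] at h2
          exact h2
  · refine ⟨2 * (n + 1) ^ 2 - 1, by have : 0 < (n + 1) ^ 2 := by positivity
                                    omega, fun v => ?_⟩
    have e1 : ¬ (2 * (n + 1) ^ 2 - 1) % 2 = 0 := by
      have : 0 < (n + 1) ^ 2 := by positivity
      omega
    have e2 : (2 * (n + 1) ^ 2 - 1) / 2 + 1 = (n + 1) ^ 2 := by
      have : 0 < (n + 1) ^ 2 := by positivity
      omega
    simp only [shortF, if_neg e1, e2]
    by_contra hcon
    have hcon' : (conjF n ((n + 1) ^ 2)).eval v = true := by simpa using hcon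
    rw [conjF_eval] at hcon'
    obtain ⟨p, p', hpp, hv⟩ := Fintype.exists_ne_map_eq_of_card_lt v (by simp)
    have hlt : p.val * (n + 1) + p'.val < (n + 1) ^ 2 := by
      have h1 := p.isLt
      have h2 := p'.isLt
      calc p.val * (n + 1) + p'.val < p.val * (n + 1) + (n + 1) := by omega
        _ = (p.val + 1) * (n + 1) := by ring
        _ ≤ (n + 1) * (n + 1) := Nat.mul_le_mul_right _ h1
        _ = _ := by ring
    have h3 := hcon' _ hlt
    have e3 : (p.val * (n + 1) + p'.val) / (n + 1) = p.val := by
      rw [mul_comm, Nat.mul_add_div (by omega), Nat.div_eq_of_lt p'.isLt, Nat.add_zero]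
    have e4 : (p.val * (n + 1) + p'.val) % (n + 1) = p'.val := by
      rw [mul_comm, Nat.mul_add_mod, Nat.mod_eq_of_lt p'.isLt]
    have e5 : Fin.ofNat (n + 1) p.val = p := by
      apply Fin.ext
      simp [Fin.ofNat, Nat.mod_eq_of_lt p.isLt]
    have e6 : Fin.ofNat (n + 1) p'.val = p' := by
      apply Fin.ext
      simp [Fin.ofNat, Nat.mod_eq_of_lt p'.isLt]
    simp only [axF, e3, e4, e5, e6, if_neg hpp] at h3
    obtain ⟨j, hj, h4⟩ := (neF_eval _ _ v _).1 h3
    rw [hv] at h4
    exact h4 rfl
  · intro i hi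
    simp only [shortF]
    split_ifs with he
    · refine (axF_size n _).trans ?_
      have : 1 ≤ (n + 1) ^ 2 := Nat.one_le_pow _ _ (by omega)
      calc 4 * (Nat.log 2 n + 1) = 4 * 1 * (Nat.log 2 n + 1) := by ring
        _ ≤ _ := Nat.mul_le_mul_right _ (Nat.mul_le_mul_left _ this)
    · refine (conjF_size n _).trans ?_
      have : i / 2 + 1 ≤ (n + 1) ^ 2 := by omega
      calc (i / 2 + 1) * (4 * (Nat.log 2 n + 1)) ≤ (n + 1) ^ 2 * (4 * (Nat.log 2 n + 1)) :=
            Nat.mul_le_mul_right _ this
        _ = _ := by ring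

/-- **Line size and number of lines of refutations of the pigeonhole principle.** (1) Exponentially
many lines are needed if every line is a Boolean function of `n ^ (2/3)` formulas with at most
`n ^ (4/3 - ε)` atoms in total. (2) `2 (n + 1) ^ 2` lines suffice if every line may be a formula
with `4 (n + 1) ^ 2 (log n + 1)` atoms. -/
theorem result : (∀ ε : ℝ, 0 < ε → ε ≤ 1 / 3 → ∃ n₀ : ℕ, ∀ n ≥ n₀,
    ∀ (d T : ℕ) (f : ℕ → (Fin (n + 1) → Fin n) → Bool), IsRefutation d T f →
      (d : ℝ) ≤ (n : ℝ) ^ (ε / 16) →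
      (∀ i < T, Comb ((n : ℝ) ^ (2 / 3 : ℝ)) ((n : ℝ) ^ (4 / 3 - ε)) (f i)) →
      (2 : ℝ) ^ ((n : ℝ) ^ (ε / 8)) < T) ∧
    ∀ n ≥ 1, ∃ A : ℕ → PF n,
      IsRefutation 2 (2 * (n + 1) ^ 2) (fun i v => (A i).eval v) ∧
      ∀ i < 2 * (n + 1) ^ 2, (A i).size ≤ 4 * (n + 1) ^ 2 * (Nat.log 2 n + 1) := by
  refine ⟨?_, fun n hn => ⟨shortF n, short_refutation n hn⟩⟩
  intro ε h0 h13
  obtain ⟨n₀, h⟩ := asym ε h0 h13
  refine ⟨n₀, fun n hn d T f hf hd hs => h n hn d T f hd ?_ hf.1 hf.2⟩
  intro i hi
  obtain ⟨Φ, h1, h2, h3⟩ := hs i hi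
  refine ⟨Φ.map toFm, by simpa using h1, ?_, ?_⟩
  · have h4 : (Fm.size ∘ toFm : PF n → ℕ) = PF.size := funext size_toFm
    rw [List.map_map, h4]
    exact h2
  · intro y y' hy
    apply h3
    intro A hA
    have := hy (toFm A) (List.mem_map.2 ⟨A, hA, rfl⟩)
    rwa [val_toFm, val_toFm] at this

end Pool.Agent.Results.MP_576eff_lc.LineSize
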