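import Pool.Agent.L5helper55.FL.Upper

/-!
# MP_576eff_lc: Frege refutations of unbounded depth with short lines

For all `n ≥ 1000` and `m ≥ 1` there is an inconsistent system of `n` linear equations over `F_2`
in `N = 2 n m` variables, with at most `4 m` variables in each equation and at most two equations
containing any variable, for which the line size `n m² = N m / 2` is a sharp threshold (up to
constants) for the refutations of its usual CNF:

* all refutations, by any sound inferences with at most `k` premises, in which every line is a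
  formula with at most `c n m² / (k + 1)` occurrences of variables (or an arbitrary Boolean function
  of at most `c n / (k + 1)` functions of approximate degree at most `c m`) have at least
  `2 ^ ⌊c n / (k + 1)⌋` lines, even if all consequences of single equations are axioms;
* there is a refutation with at most two premises per inference and at most `3 n 2 ^ (4 m)` lines,
  all of them formulas with at most `65 n m²` occurrences of variables.

The definitions are in `Pool.Agent.L5helper55.FL.Defs`.
-/

set_option autoImplicit false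

namespace Pool.Agent.Results.MP_576eff_lc.ShortLines

open Finset Pool.Agent.L5helper55.FL

theorem result : ∃ c : ℝ, 0 < c ∧ ∀ n m : ℕ, 1000 ≤ n → 1 ≤ m →
    ∃ (A : Fin n → Finset ((Fin n × Bool) × Fin m)) (b : Fin n → ZMod 2),
      (∀ v, (A v).card ≤ 4 * m) ∧
      (∀ u, (univ.filter fun v => u ∈ A v).card ≤ 2) ∧
      (cnf A b).ncard ≤ n * 2 ^ (4 * m) ∧
      (∀ x, ∃ v, par (A v) x ≠ b v) ∧
      (∀ (k : ℕ) (l : List (((Fin n × Bool) × Fin m → Bool) → Bool)),
        Refutes (equations A b) k l →
        (∀ f ∈ l,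
          (∃ φ : Formula ((Fin n × Bool) × Fin m),
            (φ.leaves : ℝ) ≤ c * n * m ^ 2 / (k + 1) ∧ ∀ x, f x = φ.eval x) ∨
          (∃ s D : ℕ, (s : ℝ) ≤ c * n / (k + 1) ∧ (D : ℝ) ≤ c * m ∧ Combination s D f)) →
        2 ^ ⌊c * n / (k + 1)⌋₊ ≤ l.length) ∧
      (∃ l : List (Formula ((Fin n × Bool) × Fin m)),
        Refutes (clauses (cnf A b)) 2 (l.map fun φ x => φ.eval x) ∧
        (∀ φ ∈ l, φ.leaves ≤ 65 * n * m ^ 2) ∧ l.length ≤ 3 * n * 2 ^ (4 * m)) := by
  classical
  refine ⟨cL, cL_pos, ?_⟩
  intro n m hn hm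
  obtain ⟨π, hπ⟩ := Pool.Agent.Helper600R2.exists_expander (n := n) (by omega)
  have hn0 : 0 < n := by omega
  refine ⟨eqSet m π, fun v => if v = ⟨0, hn0⟩ then 1 else 0, eqSet_card π, eqSet_two π,
    ?_, unsat π hn0, ?_, ?_⟩
  · convert cnf_card m (eqSet m π) (eqSet_card π) (fun v => if v = ⟨0, hn0⟩ then 1 else 0)
  · intro k l hl hs
    exact lower hn hm π hπ _ k l hl (fun f hf => (hs f hf).symm)
  · obtain ⟨l, φ, h1, h2, h3, h4, h5, h6⟩ := conj m hm (eqSet m π) (eqSet_card π)
      (fun v => if v = ⟨0, hn0⟩ then 1 else 0) (List.finRange n)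
    rw [List.length_finRange] at h4 h5 h6
    refine ⟨l, ⟨?_, fun x => φ.eval x, List.mem_map.mpr ⟨φ, h2, rfl⟩, ?_⟩, ?_, ?_⟩
    · convert h1
    · intro x
      obtain ⟨v, hv⟩ := unsat π hn0 x
      by_contra hcon
      have : φ.eval x = true := by simpa using hcon
      exact hv ((h3 x).mp this v (List.mem_finRange v))
    · intro ψ hψ
      have h7 := h6 ψ hψ
      have h8 : m ≤ m ^ 2 := Nat.le_self_pow (by norm_num) m
      have h9 : 1000 * m ^ 2 ≤ n * m ^ 2 := Nat.mul_le_mul_right _ hn
      have e1 : n * (64 * m ^ 2) = 64 * (n * m ^ 2) := by ring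
      have e2 : 65 * n * m ^ 2 = 65 * (n * m ^ 2) := by ring
      omega
    · have h7 : 2 ^ (4 * m + 1) = 2 * 2 ^ (4 * m) := by rw [pow_succ']
      have h8 : 1 ≤ n * 2 ^ (4 * m) := Nat.mul_pos hn0 (by positivity)
      have e1 : n * 2 ^ (4 * m + 1) = 2 * (n * 2 ^ (4 * m)) := by rw [h7]; ring
      have e2 : 3 * n * 2 ^ (4 * m) = 3 * (n * 2 ^ (4 * m)) := by ring
      omega

end Pool.Agent.Results.MP_576eff_lc.ShortLines
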