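import Pool.Agent.L5helper51.WF.Super
import Pool.Agent.L5helper51.WF.Upper

/-!
# Semantic proofs with very wide inferences

Definitions (`Clause`, `Clause.Holds`, `Line`, `Line.Holds`, `Prem`, `Refutation`):
`Pool.Agent.L5helper51.WF.Defs`.

The clique-colouring formula says that a graph with `N` vertices has a clique with `c + 1` vertices
and a proper colouring with `c` colours. It has about `(c + 1) ^ 2 * N ^ 2` clauses. We consider
refutations whose lines are inequalities `A (p, q) + B r ≥ 0` with arbitrary real functions `A`, `B`,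
and whose inferences derive any `w` lines which follow from `w` premises (clauses or earlier lines).
-/

namespace Pool.Agent.Results.MP_576eff_lc.WideInferences

open Pool.Agent.L5helper51.WF

theorem result :
    (∀ c r : ℕ, 2 ≤ c → c + 1 = 2 * r → ∃ K : ℕ, ∀ N w g : ℕ, 1 ≤ w →
      Nonempty (Refutation N c w g) →
        N ^ (c + 1) ≤ K * (Nat.log 2 N + 1) ^ ((c + 1) ^ 2) * w ^ r * g) ∧
    (∀ m d : ℕ, 1 ≤ m → ∃ c N0 : ℕ, ∀ N ≥ N0, ∀ w g : ℕ, 1 ≤ w → w ^ m ≤ N ^ (2 * m - 1) →
      Nonempty (Refutation N c w g) → N ^ d < g) ∧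
    (∀ N c b : ℕ, 1 ≤ b →
      Nonempty (Refutation N c (6 * (c + 1) ^ 4 * b ^ 2) ((N / b + 1) ^ (c + 1) + 1))) := by
  refine ⟨fun c r hc hr => ?_, fun m d hm => ?_, fun N c b hb => upper N c hb⟩
  · obtain ⟨K, _, hK⟩ := lower c r hc hr
    exact ⟨K, fun N w g hw ⟨R⟩ => hK N w g hw R⟩
  · obtain ⟨c, N0, h⟩ := super m d hm
    exact ⟨c, N0, fun N hN w g hw hwm ⟨R⟩ => h N hN w g hw hwm R⟩

end Pool.Agent.Results.MP_576eff_lc.WideInferences
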